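import Mathlib

open scoped Matrix.Norms.L2Operator ComplexOrder
open Matrix WithLp

namespace Pool.Agent.Y495.NA

set_option linter.unusedSectionVars false

variable {κ : Type*} [Fintype κ] [DecidableEq κ] {ι : Type*} [Fintype ι] [DecidableEq ι]

lemma sum_block {M : Type*} [AddCommMonoid M] (e : ι ≃ κ × Fin 2) (b : κ) (F : ι → M) :
    ∑ l, (if b = (e l).1 then F l else 0) = ∑ j, F (e.symm (b, j)) := by
  rw [← e.symm.sum_comp, Fintype.sum_prod_type]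
  simp

lemma sum_all {M : Type*} [AddCommMonoid M] (e : ι ≃ κ × Fin 2) (F : ι → M) :
    ∑ l, F l = ∑ b, ∑ j, F (e.symm (b, j)) := by
  rw [← e.symm.sum_comp, Fintype.sum_prod_type]

/-- The block-diagonal matrix (blocks of size `2`, indexed by `κ`) whose `b`-th block is the
rank-one matrix `f b ⊗ g b`. -/
noncomputable def R (𝕜 : Type*) [RCLike 𝕜] (e : ι ≃ κ × Fin 2) (f g : κ → Fin 2 → ℝ) :
    Matrix ι ι 𝕜 :=
  Matrix.of fun k l => if (e k).1 = (e l).1 then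
    ((f (e k).1 (e k).2 * g (e l).1 (e l).2 : ℝ) : 𝕜) else 0

variable (𝕜 : Type*) [RCLike 𝕜]

lemma R_apply (e : ι ≃ κ × Fin 2) (f g : κ → Fin 2 → ℝ) (k l : ι) :
    R 𝕜 e f g k l = if (e k).1 = (e l).1 then
      ((f (e k).1 (e k).2 * g (e l).1 (e l).2 : ℝ) : 𝕜) else 0 := rfl

lemma R_mul (e : ι ≃ κ × Fin 2) (f g f' g' : κ → Fin 2 → ℝ) :
    R 𝕜 e f g * R 𝕜 e f' g' = R 𝕜 e (fun b i => (∑ j, g b j * f' b j) * f b i) g' := by
  ext k l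
  rw [Matrix.mul_apply]
  have h : ∀ p, R 𝕜 e f g k p * R 𝕜 e f' g' p l = if (e k).1 = (e p).1 then
      ((f (e k).1 (e k).2 * g (e k).1 (e p).2 : ℝ) : 𝕜) *
        (if (e k).1 = (e l).1 then
      ((f' (e k).1 (e p).2 * g' (e l).1 (e l).2 : ℝ) : 𝕜) else 0) else 0 := by
    intro p
    simp only [R_apply]
    by_cases hp : (e k).1 = (e p).1
    · simp only [hp, if_true]
    · simp [hp]
  rw [Finset.sum_congr rfl fun p _ => h p, sum_block]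
  simp only [R_apply, Equiv.apply_symm_apply]
  by_cases hl : (e k).1 = (e l).1
  · simp only [hl, if_true]
    push_cast
    rw [Fin.sum_univ_two, Fin.sum_univ_two]
    ring
  · simp [hl]

lemma R_conjTranspose (e : ι ≃ κ × Fin 2) (f g : κ → Fin 2 → ℝ) :
    (R 𝕜 e f g)ᴴ = R 𝕜 e g f := by
  ext k l
  rw [Matrix.conjTranspose_apply, R_apply, R_apply]
  by_cases hl : (e k).1 = (e l).1
  · rw [if_pos hl, if_pos hl.symm]
    simp [mul_comm]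
  · rw [if_neg hl, if_neg (fun h => hl h.symm)]
    simp

lemma R_posSemidef (e : ι ≃ κ × Fin 2) (f : κ → Fin 2 → ℝ) :
    (R 𝕜 e f f).PosSemidef := by
  have h : R 𝕜 e f f = (R 𝕜 e (fun _ i => if i = 0 then 1 else 0) f)ᴴ *
      R 𝕜 e (fun _ i => if i = 0 then 1 else 0) f := by
    rw [R_conjTranspose, R_mul]
    congr 1
    funext b i
    simp
  rw [h]
  exact Matrix.posSemidef_conjTranspose_mul_self _

lemma R_mulVec (e : ι ≃ κ × Fin 2) (f g : κ → Fin 2 → ℝ) (x : ι → 𝕜) (k : ι) :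
    (R 𝕜 e f g *ᵥ x) k = (f (e k).1 (e k).2 : 𝕜) *
      ∑ j, (g (e k).1 j : 𝕜) * x (e.symm ((e k).1, j)) := by
  simp only [Matrix.mulVec, dotProduct, R_apply, ite_mul, zero_mul]
  have := sum_block e (e k).1 (fun l => ((f (e k).1 (e k).2 * g (e l).1 (e l).2 : ℝ) : 𝕜) * x l)
  rw [this]
  simp only [Equiv.apply_symm_apply]
  push_cast
  rw [Finset.mul_sum]
  exact Finset.sum_congr rfl fun j _ => by ring

lemma norm_R_le (e : ι ≃ κ × Fin 2) (f g : κ → Fin 2 → ℝ) (K : ℝ) (hK : 0 ≤ K)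
    (h : ∀ b, (∑ i, f b i ^ 2) * (∑ i, g b i ^ 2) ≤ K ^ 2) : ‖R 𝕜 e f g‖ ≤ K := by
  set T := toEuclideanCLM (n := ι) (𝕜 := 𝕜) (R 𝕜 e f g)
  rw [← l2_opNorm_toEuclideanCLM]
  refine T.opNorm_le_bound hK fun x ↦ ?_
  refine (sq_le_sq₀ (by positivity) (by positivity)).mp ?_
  rw [mul_pow, (T x).norm_sq_eq, x.norm_sq_eq, sum_all e, sum_all e, Finset.mul_sum]
  refine Finset.sum_le_sum fun b _ => ?_
  simp only [ofLp_toEuclideanCLM, R_mulVec, T, Equiv.apply_symm_apply, norm_mul, mul_pow,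
    RCLike.norm_ofReal, sq_abs]
  rw [← Finset.sum_mul]
  have h1 : ‖∑ j, (g b j : 𝕜) * x.ofLp (e.symm (b, j))‖ ^ 2 ≤
      (∑ j, g b j ^ 2) * ∑ j, ‖x.ofLp (e.symm (b, j))‖ ^ 2 := by
    have h2 : ‖∑ j, (g b j : 𝕜) * x.ofLp (e.symm (b, j))‖ ≤
        ∑ j, |g b j| * ‖x.ofLp (e.symm (b, j))‖ := by
      refine (norm_sum_le _ _).trans (le_of_eq ?_)
      exact Finset.sum_congr rfl fun j _ => by rw [norm_mul, RCLike.norm_ofReal]
    have h3 := Finset.sum_mul_sq_le_sq_mul_sq Finset.univ (fun j => |g b j|)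
      (fun j => ‖x.ofLp (e.symm (b, j))‖)
    simp only [sq_abs] at h3
    exact (pow_le_pow_left₀ (norm_nonneg _) h2 2).trans h3
  calc (∑ i, f b i ^ 2) * ‖∑ j, (g b j : 𝕜) * x.ofLp (e.symm (b, j))‖ ^ 2
      ≤ (∑ i, f b i ^ 2) * ((∑ j, g b j ^ 2) * ∑ j, ‖x.ofLp (e.symm (b, j))‖ ^ 2) := by
        exact mul_le_mul_of_nonneg_left h1 (Finset.sum_nonneg fun _ _ => sq_nonneg _)
    _ = ((∑ i, f b i ^ 2) * (∑ j, g b j ^ 2)) * ∑ j, ‖x.ofLp (e.symm (b, j))‖ ^ 2 := by ring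
    _ ≤ K ^ 2 * ∑ j, ‖x.ofLp (e.symm (b, j))‖ ^ 2 := by
        exact mul_le_mul_of_nonneg_right (h b) (Finset.sum_nonneg fun _ _ => sq_nonneg _)

lemma le_norm_R (e : ι ≃ κ × Fin 2) (f g : κ → Fin 2 → ℝ) (K : ℝ) (hK : 0 ≤ K) (b : κ)
    (hg : ∑ i, g b i ^ 2 = 1) (hf : K ^ 2 ≤ ∑ i, f b i ^ 2) : K ≤ ‖R 𝕜 e f g‖ := by
  set T := toEuclideanCLM (n := ι) (𝕜 := 𝕜) (R 𝕜 e f g) with hT
  rw [← l2_opNorm_toEuclideanCLM]
  let x : EuclideanSpace 𝕜 ι := toLp 2 (fun k => if b = (e k).1 then ((g b (e k).2 : ℝ) : 𝕜) else 0)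
  have hx : ‖x‖ ^ 2 = 1 := by
    rw [x.norm_sq_eq]
    have : ∀ k, ‖x.ofLp k‖ ^ 2 = if b = (e k).1 then g b (e k).2 ^ 2 else 0 := by
      intro k
      simp only [x]
      split_ifs with h
      · rw [RCLike.norm_ofReal, sq_abs]
      · simp
    rw [Finset.sum_congr rfl fun k _ => this k, sum_block]
    simpa using hg
  have hx1 : ‖x‖ = 1 := by
    have h0 := norm_nonneg x
    nlinarith
  have hTx : K ^ 2 ≤ ‖T x‖ ^ 2 := by
    rw [(T x).norm_sq_eq, sum_all e]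
    have hb : ∑ j, ‖(T x).ofLp (e.symm (b, j))‖ ^ 2 = ∑ i, f b i ^ 2 := by
      refine Finset.sum_congr rfl fun j _ => ?_
      simp only [ofLp_toEuclideanCLM, R_mulVec, T, Equiv.apply_symm_apply, norm_mul, mul_pow,
        RCLike.norm_ofReal, sq_abs]
      have : ∑ j, (g b j : 𝕜) * x.ofLp (e.symm (b, j)) = 1 := by
        simp only [x, Equiv.apply_symm_apply, if_true]
        have h1 : ((∑ i, g b i ^ 2 : ℝ) : 𝕜) = 1 := by rw [hg]; simp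
        rw [← h1]
        push_cast
        exact Finset.sum_congr rfl fun j _ => by ring
      rw [this]
      simp
    calc K ^ 2 ≤ ∑ i, f b i ^ 2 := hf
      _ = ∑ j, ‖(T x).ofLp (e.symm (b, j))‖ ^ 2 := hb.symm
      _ ≤ ∑ b, ∑ j, ‖(T x).ofLp (e.symm (b, j))‖ ^ 2 :=
        Finset.single_le_sum (f := fun b => ∑ j, ‖(T x).ofLp (e.symm (b, j))‖ ^ 2)
          (fun _ _ => Finset.sum_nonneg fun _ _ => sq_nonneg _) (Finset.mem_univ b)
  have h2 : K ≤ ‖T x‖ := by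
    exact (sq_le_sq₀ hK (norm_nonneg _)).mp hTx
  calc K ≤ ‖T x‖ := h2
    _ ≤ ‖T‖ * ‖x‖ := T.le_opNorm x
    _ = ‖T‖ := by rw [hx1, mul_one]


lemma R_mul_scaled (e : ι ≃ κ × Fin 2) (f f' g : κ → Fin 2 → ℝ) (c : κ → ℝ) :
    R 𝕜 e f f * R 𝕜 e (fun b i => c b * f' b i) g =
      R 𝕜 e (fun b i => ((∑ j, f b j * f' b j) * c b) * f b i) g := by
  rw [R_mul]
  congr 1
  funext b i
  simp only [Fin.sum_univ_two]
  ring

lemma norm_scaled_le (e : ι ≃ κ × Fin 2) (f g : κ → Fin 2 → ℝ) (c : κ → ℝ)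
    (hf : ∀ b, ∑ i, f b i ^ 2 = 1) (hg : ∀ b, ∑ i, g b i ^ 2 = 1) (K : ℝ) (hK : 0 ≤ K)
    (h : ∀ b, |c b| ≤ K) : ‖R 𝕜 e (fun b i => c b * f b i) g‖ ≤ K := by
  refine norm_R_le 𝕜 e _ g K hK fun b => ?_
  have h1 : ∑ i, (c b * f b i) ^ 2 = c b ^ 2 := by
    have : ∑ i, (c b * f b i) ^ 2 = c b ^ 2 * ∑ i, f b i ^ 2 := by
      rw [Finset.mul_sum]
      exact Finset.sum_congr rfl fun i _ => by ring
    rw [this, hf, mul_one]
  rw [h1, hg, mul_one, ← sq_abs]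
  exact pow_le_pow_left₀ (abs_nonneg _) (h b) 2

lemma le_norm_scaled (e : ι ≃ κ × Fin 2) (f g : κ → Fin 2 → ℝ) (c : κ → ℝ)
    (hf : ∀ b, ∑ i, f b i ^ 2 = 1) (hg : ∀ b, ∑ i, g b i ^ 2 = 1) (b : κ) :
    |c b| ≤ ‖R 𝕜 e (fun b i => c b * f b i) g‖ := by
  refine le_norm_R 𝕜 e _ g |c b| (abs_nonneg _) b (hg b) ?_
  have : ∑ i, (c b * f b i) ^ 2 = c b ^ 2 * ∑ i, f b i ^ 2 := by
    rw [Finset.mul_sum]
    exact Finset.sum_congr rfl fun i _ => by ring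
  rw [this, hf, mul_one, sq_abs]

end Pool.Agent.Y495.NA
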